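import Pool.Agent.Q71.SE.Main
import Pool.Agent.Q71.SE.Fol

/-!
# Lamplighters with non-abelian lamps have a scaling entropy growth gap
-/

namespace Pool.Agent.Results.MP_a6e297_an.GrowthGap

open Filter Q71.SE

/-- **Q1, positive answer.** For every finite non-abelian group `A`, the group `A ≀ ℤ` has Folner
sequences, and for every Folner sequence `F` of `A ≀ ℤ` there is `φ : ℕ → ℕ` tending to infinity
such that the scaling entropy along `F` of every essentially free p.m.p. action of `A ≀ ℤ`
is `≿ φ`. -/
theorem result (A : Type*) [Group A] [Finite A] (hA : ∃ a b : A, a * b ≠ b * a) :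
    (∃ F : ℕ → Finset (Lamplighter A), IsFolner F) ∧
    ∀ F : ℕ → Finset (Lamplighter A), IsFolner F →
      ∃ φ : ℕ → ℕ, Tendsto φ atTop atTop ∧ IsUniversalLowerBound (Lamplighter A) F φ := by
  obtain ⟨a, b, hab⟩ := hA
  exact ⟨⟨_, isFolner_fol⟩, fun F hF => gap_of_commutator (Lamplighter.lampAt_ne hab)
    (fun m hm => Lamplighter.comm_tr a b m hm) hF⟩

end Pool.Agent.Results.MP_a6e297_an.GrowthGap
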